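import Pool.Agent.W46.MZ.Stm

set_option autoImplicit false

/-! # Sets of positive upper Banach density are clustered -/

namespace Pool.Agent.W864.MZ

open Finset Pool.Agent.W46.MZ

theorem DENS : S_DENS := by
  rintro S ⟨k, hk, h⟩ n
  refine ⟨2 * k * n, fun x₀ => ?_⟩
  by_contra hcon
  push Not at hcon
  have hlt : ∀ x, x₀ ≤ x → ∀ T : Finset ℕ, T ⊆ Icc x (x + 2 * k * n) → (T : Set ℕ) ⊆ S →
      T.card ≤ n - 1 := by
    intro x hx T hT hTS
    by_contra hc
    have hn : n ≤ T.card := by omega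
    obtain ⟨T', hT', hcard⟩ := Finset.exists_subset_card_eq hn
    exact hcon x hx T' (hT'.trans hT)
      ((by exact_mod_cast hT' : (T' : Set ℕ) ⊆ (T : Set ℕ)).trans hTS) hcard
  obtain ⟨x, hx, N, hN, T, hT, hTS, hNk⟩ := h (2 * k * n + 1) x₀
  obtain ⟨L, hL⟩ : ∃ L : ℕ, L = 2 * k * n := ⟨_, rfl⟩
  rw [← hL] at hlt hN
  have hcard : T.card ≤ (n - 1) * (range (N / (L + 1) + 1)).card := by
    refine Finset.card_le_mul_card_image_of_maps_to (f := fun t => (t - x) / (L + 1)) ?_ (n - 1) ?_
    · intro t ht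
      have h1 := mem_Icc.mp (hT ht)
      rw [mem_range]
      have : (t - x) / (L + 1) ≤ N / (L + 1) := Nat.div_le_div_right (by omega)
      show (t - x) / (L + 1) < N / (L + 1) + 1
      omega
    · intro i _
      refine hlt (x + (L + 1) * i) (by omega) _ ?_ ?_
      · intro t ht
        rw [mem_filter] at ht
        obtain ⟨ht, hti⟩ := ht
        have h1 := mem_Icc.mp (hT ht)
        have h2 := Nat.div_add_mod (t - x) (L + 1)
        have h3 : (t - x) % (L + 1) < L + 1 := Nat.mod_lt _ (Nat.succ_pos L)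
        rw [hti] at h2
        generalize (t - x) % (L + 1) = r at h2 h3
        generalize (L + 1) * i = w at h2 ⊢
        rw [mem_Icc]
        omega
      · intro t ht
        rw [coe_filter] at ht
        exact hTS ht.1
  rw [card_range] at hcard
  obtain ⟨q, hq⟩ : ∃ q : ℕ, q = N / (L + 1) := ⟨_, rfl⟩
  rw [← hq] at hcard
  have hqN : q * (L + 1) ≤ N := by
    rw [hq]
    exact Nat.div_mul_le_self _ _
  have h5 : N ≤ k * ((n - 1) * (q + 1)) := hNk.trans (Nat.mul_le_mul_left k hcard)
  have h6 : (n - 1) * (q + 1) ≤ n * (q + 1) := Nat.mul_le_mul_right _ (by omega)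
  have h7 : 2 * N ≤ 2 * (k * (n * (q + 1))) :=
    Nat.mul_le_mul_left 2 (h5.trans (Nat.mul_le_mul_left k h6))
  have h8 : 2 * (k * (n * (q + 1))) = q * L + L := by
    rw [hL]; ring
  have h9 : q * (L + 1) = q * L + q := by ring
  omega

end Pool.Agent.W864.MZ
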